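import Mathlib
import Pool.Agent.Q84.Elem.Main

set_option autoImplicit false

open scoped TensorProduct
open CategoryTheory AlgebraicGeometry

universe u

namespace Pool.Agent.Results.MP_5ec99c_ag.InfinitelyMany

open Pool.Agent.Helper226 Pool.Agent.Q84.Elem

/-- Over every algebraically closed field there are infinitely many elementary components of the
Hilbert schemes of points of affine three-space: for every `R` there are an `r > R` and an
elementary component of the Hilbert scheme of `r` points. -/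
theorem result (k : Type u) [Field k] [IsAlgClosed k] :
    (∀ r : ℕ, Nonempty (HilbertScheme k (MvPolynomial (Fin 3) k) r)) ∧
    ∀ 𝓗 : (∀ r : ℕ, HilbertScheme k (MvPolynomial (Fin 3) k) r),
      {p : Σ r : ℕ, Set (𝓗 r).H | IsElementary (𝓗 p.1) p.2}.Infinite ∧
      ∀ R : ℕ, ∃ r : ℕ, R < r ∧ ∃ C : Set (𝓗 r).H, IsElementary (𝓗 r) C := by
  refine ⟨fun r => ⟨hilb k _ r⟩, fun 𝓗 => ?_⟩
  have key : ∀ R : ℕ, ∃ r : ℕ, R < r ∧ ∃ C : Set (𝓗 r).H, IsElementary (𝓗 r) C := by
    intro R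
    obtain ⟨d, hd, C, hC⟩ := main_hilb k R
    exact ⟨d, hd, _, isElementary_transfer (hilb k _ d) (𝓗 d) C hC⟩
  refine ⟨?_, key⟩
  intro hfin
  have h1 : (Sigma.fst '' {p : Σ r : ℕ, Set (𝓗 r).H | IsElementary (𝓗 p.1) p.2}).Finite :=
    hfin.image _
  obtain ⟨R, hR⟩ := h1.bddAbove
  obtain ⟨r, hr, C, hC⟩ := key R
  have h2 : r ≤ R := hR ⟨⟨r, C⟩, hC, rfl⟩
  omega

end Pool.Agent.Results.MP_5ec99c_ag.InfinitelyMany
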